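import Mathlib

/-!
# The numbers of the tie with three coordinates

`GrN`: the grid numbers. `i₁`, `i₂`: the records `b`, `b₂` of the two systems; `k₂`: the second base
window; the first base window is the window `0`. `j₁`, `j₂`: windows with at most `7 / 8` units of new
digits of the velocities; `l₁`, `l₂`: windows where all the digits of the systems are natural. `m`: the
number of grid steps of a unit. `T4Nm`: the numbers of one family. `t4nm`: they exist.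
-/

set_option autoImplicit false

namespace Pool.T4N97

/-- **The grid numbers.** -/
structure GrN (s : ℝ) (A : ℕ → ℕ) (m i₁ j₁ l₁ k₂ i₂ j₂ l₂ L : ℕ) : Prop where
  m1 : 1 ≤ m
  ei₁ : i₁ = A 0 * m
  ei₂ : i₂ = k₂ + A 5 * m
  ij₁ : i₁ < j₁
  ij₂ : i₂ < j₂
  ik : i₁ < k₂
  il₁ : i₁ ≤ l₁
  il₂ : i₂ ≤ l₂
  iL : i₂ ≤ L
  jL₁ : j₁ ≤ L
  jL₂ : j₂ ≤ L
  lL₁ : l₁ ≤ L
  lL₂ : l₂ ≤ L
  al₁ : 2 ≤ (s - 1) * ((j₁ : ℝ) - i₁)
  al₁' : (s - 1) * ((j₁ : ℝ) - i₁) ≤ 7 / 8 * m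
  al₂ : 2 ≤ (s - 1) * ((j₂ : ℝ) - i₂)
  al₂' : (s - 1) * ((j₂ : ℝ) - i₂) ≤ 7 / 8 * m
  tp₁ : A 0 * m + 1 ≤ (s - 1) * ((l₁ : ℝ) - i₁)
  tp₁' : (s - 1) * ((l₁ : ℝ) - i₁) ≤ A 0 * m + s
  tp₂ : A 5 * m + 1 ≤ (s - 1) * ((l₂ : ℝ) - i₂)
  tp₂' : (s - 1) * ((l₂ : ℝ) - i₂) ≤ A 5 * m + s
  kl : ((A 4 : ℝ) + 1) * m ≤ (s - 1) * ((k₂ : ℝ) - i₁)
  kl' : (s - 1) * ((k₂ : ℝ) - i₁) ≤ (A 4 + 1) * m + s
  nn : (s - 1) * ((i₂ : ℝ) - i₁) + 1 ≤ A 6 * m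

/-- **The grid numbers exist**, for all large `m`. -/
theorem grn {s : ℝ} (hs : 1 < s) {A : ℕ → ℕ} {S : ℕ} (hS : 2 * s + 1 ≤ S) (h5 : 1 ≤ A 5)
    (h46 : A 4 + S * A 5 ≤ A 6) {m : ℕ} (hm : 4 * s + 4 ≤ m) :
    ∃ i₁ j₁ l₁ k₂ i₂ j₂ l₂ L : ℕ, GrN s A m i₁ j₁ l₁ k₂ i₂ j₂ l₂ L := by
  have hs0 : 0 < s - 1 := by linarith
  have hm0 : (0 : ℝ) < m := by linarith
  have hm1 : 1 ≤ m := by
    have : (1 : ℝ) ≤ m := by linarith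
    exact_mod_cast this
  -- the step to the alive windows
  obtain ⟨d, hd⟩ : ∃ d : ℕ, d = ⌊7 / 8 * (m : ℝ) / (s - 1)⌋₊ := ⟨_, rfl⟩
  have d1 : (s - 1) * (d : ℝ) ≤ 7 / 8 * m := by
    have h1 : (d : ℝ) ≤ 7 / 8 * (m : ℝ) / (s - 1) := by
      rw [hd]
      exact Nat.floor_le (by positivity)
    rw [le_div_iff₀ hs0] at h1
    linarith
  have d2 : 2 ≤ (s - 1) * (d : ℝ) := by
    have h1 : 7 / 8 * (m : ℝ) / (s - 1) < d + 1 := by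
      rw [hd]
      exact Nat.lt_floor_add_one _
    rw [div_lt_iff₀ hs0] at h1
    nlinarith
  have d3 : 1 ≤ d := by
    rcases Nat.eq_zero_or_pos d with h | h
    · rw [h] at d2
      norm_num at d2
    · exact h
  have top : ∀ x : ℝ, 0 ≤ x → ∃ e : ℕ, x ≤ (s - 1) * e ∧ (s - 1) * (e : ℝ) ≤ x + (s - 1) := by
    intro x hx
    refine ⟨⌈x / (s - 1)⌉₊, ?_, ?_⟩
    · have h1 := Nat.le_ceil (x / (s - 1))
      rw [div_le_iff₀ hs0] at h1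
      linarith
    · have h1 := Nat.ceil_lt_add_one (div_nonneg hx hs0.le)
      have h2 := mul_le_mul_of_nonneg_left h1.le hs0.le
      rw [mul_add, mul_div_cancel₀ _ hs0.ne'] at h2
      linarith
  obtain ⟨e₁, e1, e1'⟩ := top (A 0 * m + 1) (by positivity)
  obtain ⟨e₂, e2, e2'⟩ := top (A 5 * m + 1) (by positivity)
  obtain ⟨e₃, e3, e3'⟩ := top ((A 4 + 1) * m) (by positivity)
  have e3p : 1 ≤ e₃ := by
    rcases Nat.eq_zero_or_pos e₃ with h | h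
    · rw [h] at e3
      have h1 : (0 : ℝ) < ((A 4 : ℝ) + 1) * m := by positivity
      rw [Nat.cast_zero, mul_zero] at e3
      linarith
    · exact h
  have hA5 : (1 : ℝ) ≤ A 5 := by exact_mod_cast h5
  have hA6 : (A 4 : ℝ) + S * A 5 ≤ A 6 := by exact_mod_cast h46
  refine ⟨A 0 * m, A 0 * m + d, A 0 * m + e₁, A 0 * m + e₃, A 0 * m + e₃ + A 5 * m,
    A 0 * m + e₃ + A 5 * m + d, A 0 * m + e₃ + A 5 * m + e₂,
    A 0 * m + e₃ + A 5 * m + d + e₁ + e₂, ⟨hm1, rfl, rfl, by omega, by omega, by omega, by omega,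
      by omega, by omega, by omega, by omega, by omega, by omega, ?_, ?_, ?_, ?_, ?_, ?_, ?_, ?_,
      ?_, ?_, ?_⟩⟩ <;> push_cast
  · linarith
  · linarith
  · linarith
  · linarith
  · linarith
  · linarith
  · linarith
  · linarith
  · linarith
  · linarith
  · -- the loss
    have k1 : ((A 4 : ℝ) + S * A 5) * m ≤ A 6 * m := mul_le_mul_of_nonneg_right hA6 hm0.le
    have k2 : (2 * s + 1) * (A 5 * m) ≤ S * (A 5 * m) :=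
      mul_le_mul_of_nonneg_right hS (by positivity)
    have k3 : (1 : ℝ) * m ≤ A 5 * m := mul_le_mul_of_nonneg_right hA5 hm0.le
    have k4 : (s + 2) * (1 * m) ≤ (s + 2) * (A 5 * m) :=
      mul_le_mul_of_nonneg_left k3 (by linarith)
    have k5 : (1 : ℝ) * (s + 1) ≤ m * (s + 1) := mul_le_mul_of_nonneg_right (by linarith) (by linarith)
    linarith

/-- **The numbers of one family** of the level `J`. `x`: the windows of the grid; `μ`: the margin; `φ`: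
the error of the slopes; `σ`: the margin of the natural digits of the velocities; `υ`: the unit. -/
structure T4Nm (s : ℝ) (A : ℕ → ℕ) (i₁ j₁ l₁ k₂ i₂ j₂ l₂ : ℕ) (x : ℕ → ℝ) (sn : ℕ → ℝ → ℝ)
    (υ μ φ σ : ℝ) (J u a a₂ rr : ℕ) (n : Fin 3 → ℕ) (N : ℕ) (g g₂ : Fin 3 → ℕ) : Prop where
  -- the definitions
  eu : u = ⌊υ * J⌋₊
  ea : a = ⌊x 0 * J⌋₊
  ea₂ : a₂ = ⌊x k₂ * J⌋₊
  en : ∀ i : Fin 3, n i = ⌊(sn (1 + i) (x i₁) - x i₁ - μ) * J⌋₊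
  eN : N = ⌊(s - 1) * (x i₂ - x i₁) * J⌋₊
  eg : ∀ i : Fin 3, g i = a + A 0 * u + n i
  eg₂ : ∀ i : Fin 3, g₂ i = a₂ + A 5 * u + n i + N
  er : rr + A 5 * u + N = A 0 * u
  -- the numbers of `t4ok_ofg`
  haa : a ≤ a₂
  ha₂ : a₂ ≤ J
  hq : A 0 * u ≤ J - a
  hq₂ : A 5 * u ≤ J - a₂
  hr : ∀ i : Fin 3, a + g₂ i + rr = a₂ + g i
  hm₁ : rr + A 5 * u ≤ A 0 * u
  hm₂ : A 0 * u ≤ rr + A 5 * u + A 6 * u
  -- the unit
  uu : (u : ℝ) ≤ υ * J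
  ul : υ * J ≤ u + 1
  -- the windows
  ab : a + A 0 * u ≤ ⌊x i₁ * J⌋₊
  ab' : ⌊x i₁ * J⌋₊ ≤ a + A 0 * u + A 0 + 1
  ab₂ : a₂ + A 5 * u ≤ ⌊x i₂ * J⌋₊
  ab₂' : ⌊x i₂ * J⌋₊ ≤ a₂ + A 5 * u + A 5 + 1
  -- the natural digits at the records
  nb : ∀ i : Fin 3, (n i : ℝ) ≤ (sn (1 + i) (x i₁) - x i₁ - μ) * J
  nb' : ∀ i : Fin 3, (sn (1 + i) (x i₁) - x i₁ - μ) * J ≤ n i + 1
  nb₂ : ∀ i : Fin 3, (n i : ℝ) + N ≤ (sn (1 + i) (x i₂) - x i₂ - μ + φ) * J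
  nb₂' : ∀ i : Fin 3, (sn (1 + i) (x i₂) - x i₂ - μ - φ) * J ≤ n i + N + 2
  -- the digits of the positions
  gb : ∀ i : Fin 3, (g i : ℝ) ≤ (sn (1 + i) (x i₁) - μ) * J
  gb' : ∀ i : Fin 3, (sn (1 + i) (x i₁) - μ) * J ≤ g i + A 0 + 2
  gb₂ : ∀ i : Fin 3, (g₂ i : ℝ) ≤ (sn (1 + i) (x i₂) - μ + φ) * J
  gb₂' : ∀ i : Fin 3, (sn (1 + i) (x i₂) - μ - φ) * J ≤ g₂ i + A 5 + 4
  -- alive: one unit of digits is natural behind the window `j`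
  dj : ∀ i : Fin 3, (sn (1 + i) (x j₁) - x j₁) * J ≤ n i + u
  dj₂ : ∀ i : Fin 3, (sn (1 + i) (x j₂) - x j₂) * J ≤ n i + N + u
  -- all the digits are natural at the window `l`
  dl : ∀ i : Fin 3, (n i : ℝ) + A 0 * u ≤ (sn (1 + i) (x l₁) - x l₁ - 3 * σ) * J
  dl₂ : ∀ i : Fin 3, (n i : ℝ) + N + A 5 * u ≤ (sn (1 + i) (x l₂) - x l₂ - 3 * σ) * J
  -- the label of the second window
  dk : ∀ i : Fin 3, (A 4 : ℝ) * u + n i + υ * J ≤ (sn (1 + i) (x k₂) - x k₂) * J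

/-- **The numbers of one family exist**, at all large levels. -/
theorem t4nm {s : ℝ} {A : ℕ → ℕ} {m i₁ j₁ l₁ k₂ i₂ j₂ l₂ L : ℕ}
    (H : GrN s A m i₁ j₁ l₁ k₂ i₂ j₂ l₂ L) (hs : 1 < s) (hA : A 5 + A 6 ≤ A 0)
    {x : ℕ → ℝ} {sn : ℕ → ℝ → ℝ} {ρ μ φ σ : ℝ} (hρ : 0 < ρ) (hx0 : 0 ≤ x 0)
    (hx : ∀ i : ℕ, x i = x 0 + i * ρ) (h1 : x L ≤ 1) (hφ : 0 ≤ φ) (hσ : 0 ≤ σ)
    (hμ : 3 * φ + 3 * σ ≤ μ) (hμ' : 32 * μ ≤ m * ρ)
    (hlin : ∀ l < 3, ∀ i ≤ L,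
      |sn (1 + l) (x i) - sn (1 + l) (x i₁) - s * (x i - x i₁)| ≤ φ)
    (hnat : ∀ l < 3, x i₁ + μ ≤ sn (1 + l) (x i₁)) (u₀ : ℕ) :
    ∃ J₀ : ℕ, ∀ J : ℕ, J₀ ≤ J → ∃ (u a a₂ rr : ℕ) (n : Fin 3 → ℕ) (N : ℕ) (g g₂ : Fin 3 → ℕ),
      u₀ ≤ u ∧ T4Nm s A i₁ j₁ l₁ k₂ i₂ j₂ l₂ x sn (m * ρ) μ φ σ J u a a₂ rr n N g g₂ := by
  obtain ⟨J₀, hJ₀⟩ := exists_nat_gt ((64 + u₀ + A 6 : ℝ) / ρ)
  refine ⟨J₀, fun J hJ => ?_⟩
  have hs0 : 0 < s - 1 := by linarith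
  have hm1 : (1 : ℝ) ≤ m := by exact_mod_cast H.m1
  have hm0 : (0 : ℝ) < m := by linarith
  have hJR : (64 + u₀ + A 6 : ℝ) ≤ ρ * J := by
    rw [div_lt_iff₀ hρ] at hJ₀
    have h2 : (J₀ : ℝ) ≤ J := by exact_mod_cast hJ
    have h3 := mul_le_mul_of_nonneg_right h2 hρ.le
    linarith
  have hJ0 : (0 : ℝ) ≤ J := Nat.cast_nonneg J
  obtain ⟨R, hR⟩ : ∃ R : ℝ, R = ρ * J := ⟨_, rfl⟩
  rw [← hR] at hJR
  have hR0 : 0 ≤ R := by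
    rw [hR]
    positivity
  have hmR : 1 * R ≤ m * R := mul_le_mul_of_nonneg_right hm1 hR0
  have hυ : (m : ℝ) * ρ * J = m * R := by rw [hR]; ring
  have hxJ : ∀ i : ℕ, x i * J = x 0 * J + i * R := fun i => by rw [hx i, hR]; ring
  have hx0' : ∀ i : ℕ, 0 ≤ x i := fun i => by
    rw [hx i]
    positivity
  have hxm : ∀ {i k : ℕ}, i ≤ k → x i ≤ x k := fun {i k} h => by
    rw [hx i, hx k]
    have h2 : (i : ℝ) ≤ k := by exact_mod_cast h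
    have h3 := mul_le_mul_of_nonneg_right h2 hρ.le
    linarith
  have hfl : ∀ y : ℝ, 0 ≤ y → (⌊y⌋₊ : ℝ) ≤ y ∧ y ≤ ⌊y⌋₊ + 1 := fun y hy =>
    ⟨Nat.floor_le hy, (Nat.lt_floor_add_one y).le⟩
  -- the numbers
  obtain ⟨u, hu⟩ : ∃ u : ℕ, u = ⌊(m : ℝ) * ρ * J⌋₊ := ⟨_, rfl⟩
  obtain ⟨a, ha⟩ : ∃ a : ℕ, a = ⌊x 0 * J⌋₊ := ⟨_, rfl⟩
  obtain ⟨a₂, ha₂⟩ : ∃ a₂ : ℕ, a₂ = ⌊x k₂ * J⌋₊ := ⟨_, rfl⟩
  obtain ⟨n, hn⟩ : ∃ n : Fin 3 → ℕ, n = fun i : Fin 3 =>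
    ⌊(sn (1 + i) (x i₁) - x i₁ - μ) * J⌋₊ := ⟨_, rfl⟩
  obtain ⟨N, hN⟩ : ∃ N : ℕ, N = ⌊(s - 1) * (x i₂ - x i₁) * J⌋₊ := ⟨_, rfl⟩
  have fu : (u : ℝ) ≤ m * R ∧ m * R ≤ u + 1 := by
    rw [hu, hυ]
    exact hfl _ (by positivity)
  have fa : (a : ℝ) ≤ x 0 * J ∧ x 0 * J ≤ a + 1 := by
    rw [ha]
    exact hfl _ (by positivity)
  have fa₂ : (a₂ : ℝ) ≤ x k₂ * J ∧ x k₂ * J ≤ a₂ + 1 := by
    rw [ha₂]
    exact hfl _ (mul_nonneg (hx0' _) hJ0)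
  have fn : ∀ i : Fin 3, (n i : ℝ) ≤ (sn (1 + i) (x i₁) - x i₁ - μ) * J ∧
      (sn (1 + i) (x i₁) - x i₁ - μ) * J ≤ n i + 1 := fun i => by
    rw [hn]
    exact hfl _ (mul_nonneg (by linarith [hnat i i.2]) hJ0)
  have hi12 : i₁ ≤ i₂ := H.ik.le.trans (by
    rw [H.ei₂]
    exact Nat.le_add_right _ _)
  have e12 : (s - 1) * (x i₂ - x i₁) * J = (s - 1) * ((i₂ : ℝ) - i₁) * R := by
    rw [hx i₂, hx i₁, hR]
    ring
  have fN : (N : ℝ) ≤ (s - 1) * ((i₂ : ℝ) - i₁) * R ∧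
      (s - 1) * ((i₂ : ℝ) - i₁) * R ≤ N + 1 := by
    rw [hN, e12]
    refine hfl _ (mul_nonneg (mul_nonneg hs0.le ?_) hR0)
    have : (i₁ : ℝ) ≤ i₂ := by exact_mod_cast hi12
    linarith
  -- the slopes
  have hV : ∀ (i : Fin 3) (k : ℕ), k ≤ L →
      |(sn (1 + i) (x k) - x k) * J - ((sn (1 + i) (x i₁) - x i₁) * J +
        (s - 1) * ((k : ℝ) - i₁) * R)| ≤ φ * J := by
    intro i k hk
    have h2 := hlin i i.2 k hk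
    have e1 : (sn (1 + i) (x k) - x k) * J - ((sn (1 + i) (x i₁) - x i₁) * J +
        (s - 1) * ((k : ℝ) - i₁) * R) =
        (sn (1 + i) (x k) - sn (1 + i) (x i₁) - s * (x k - x i₁)) * J := by
      rw [hx k, hx i₁, hR]
      ring
    rw [e1, abs_mul, abs_of_nonneg hJ0]
    exact mul_le_mul_of_nonneg_right h2 hJ0
  have hμJ : 3 * (φ * J) + 3 * (σ * J) ≤ μ * J := by
    have := mul_le_mul_of_nonneg_right hμ hJ0
    linarith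
  have hμJ' : 32 * (μ * J) ≤ m * R := by
    have := mul_le_mul_of_nonneg_right hμ' hJ0
    rw [hυ] at this
    linarith
  have hφJ : 0 ≤ φ * J := mul_nonneg hφ hJ0
  have hσJ : 0 ≤ σ * J := mul_nonneg hσ hJ0
  have c1 : (i₁ : ℝ) = A 0 * m := by rw [H.ei₁]; push_cast; ring
  have c2 : (i₂ : ℝ) = k₂ + A 5 * m := by rw [H.ei₂]; push_cast; ring
  have x1 : x i₁ * J = x 0 * J + A 0 * (m * R) := by rw [hxJ, c1]; ring
  have x2 : x i₂ * J = x k₂ * J + A 5 * (m * R) := by rw [hxJ, hxJ k₂, c2]; ring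
  have A0 : (0 : ℝ) ≤ A 0 := Nat.cast_nonneg _
  have A5 : (0 : ℝ) ≤ A 5 := Nat.cast_nonneg _
  have A4 : (0 : ℝ) ≤ A 4 := Nat.cast_nonneg _
  have A6 : (0 : ℝ) ≤ A 6 := Nat.cast_nonneg _
  have u1 : (A 0 : ℝ) * u ≤ A 0 * (m * R) := mul_le_mul_of_nonneg_left fu.1 A0
  have u1' : (A 0 : ℝ) * (m * R) ≤ A 0 * (u + 1) := mul_le_mul_of_nonneg_left fu.2 A0
  have u5 : (A 5 : ℝ) * u ≤ A 5 * (m * R) := mul_le_mul_of_nonneg_left fu.1 A5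
  have u5' : (A 5 : ℝ) * (m * R) ≤ A 5 * (u + 1) := mul_le_mul_of_nonneg_left fu.2 A5
  have u4 : (A 4 : ℝ) * u ≤ A 4 * (m * R) := mul_le_mul_of_nonneg_left fu.1 A4
  have u6' : (A 6 : ℝ) * (m * R) ≤ A 6 * (u + 1) := mul_le_mul_of_nonneg_left fu.2 A6
  -- the products
  have q_al₁ := mul_le_mul_of_nonneg_right H.al₁' hR0
  have q_al₂ := mul_le_mul_of_nonneg_right H.al₂' hR0
  have q_tp₁ := mul_le_mul_of_nonneg_right H.tp₁ hR0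
  have q_tp₂ := mul_le_mul_of_nonneg_right H.tp₂ hR0
  have q_kl := mul_le_mul_of_nonneg_right H.kl hR0
  have q_nn := mul_le_mul_of_nonneg_right H.nn hR0
  have hA6R : (A 6 : ℝ) ≤ R := by
    have : (0 : ℝ) ≤ u₀ := Nat.cast_nonneg _
    linarith
  have hN6 : N ≤ A 6 * u := by
    have h2 : (N : ℝ) ≤ A 6 * u := by linarith [fN.1]
    exact_mod_cast h2
  have hA0u : A 5 * u + A 6 * u ≤ A 0 * u := by
    rw [← Nat.add_mul]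
    exact Nat.mul_le_mul_right _ hA
  obtain ⟨rr, hrr⟩ : ∃ rr : ℕ, rr = A 0 * u - A 5 * u - N := ⟨_, rfl⟩
  have er : rr + A 5 * u + N = A 0 * u := by omega
  have ab : a + A 0 * u ≤ ⌊x i₁ * J⌋₊ := by
    refine Nat.le_floor ?_
    push_cast
    linarith [fa.1]
  have ab₂ : a₂ + A 5 * u ≤ ⌊x i₂ * J⌋₊ := by
    refine Nat.le_floor ?_
    push_cast
    linarith [fa₂.1]
  have hJ1 : ∀ i ≤ L, ⌊x i * J⌋₊ ≤ J := fun i hi => by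
    have h2 : x i * J ≤ 1 * J := mul_le_mul_of_nonneg_right ((hxm hi).trans h1) hJ0
    rw [one_mul] at h2
    have h3 := Nat.floor_le_floor h2
    rwa [Nat.floor_natCast] at h3
  have v : ∀ (i : Fin 3) (k : ℕ), k ≤ L →
      (sn (1 + i) (x k) - x k) * J ≤ (sn (1 + i) (x i₁) - x i₁) * J +
        (s - 1) * ((k : ℝ) - i₁) * R + φ * J ∧
      (sn (1 + i) (x i₁) - x i₁) * J + (s - 1) * ((k : ℝ) - i₁) * R ≤
        (sn (1 + i) (x k) - x k) * J + φ * J := fun i k hk => by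
    have h2 := abs_le.1 (hV i k hk)
    constructor <;> linarith [h2.1, h2.2]
  refine ⟨u, a, a₂, rr, n, N, fun i => a + A 0 * u + n i, fun i => a₂ + A 5 * u + n i + N, ?_,
    ⟨hu, ha, ha₂, fun i => by rw [hn], hN, fun _ => rfl, fun _ => rfl, er, ?_, ?_, ?_, ?_, ?_, ?_,
      ?_, ?_, ?_, ab, ?_, ab₂, ?_, ?_, ?_, ?_, ?_, ?_, ?_, ?_, ?_, ?_, ?_, ?_, ?_, ?_⟩⟩
  · -- `u₀`
    have h2 : (u₀ : ℝ) ≤ u := by linarith [fu.2]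
    exact_mod_cast h2
  · -- haa
    rw [ha, ha₂]
    exact Nat.floor_le_floor (mul_le_mul_of_nonneg_right (hxm (Nat.zero_le _)) hJ0)
  · -- ha₂
    rw [ha₂]
    exact hJ1 _ ((show k₂ ≤ i₂ by rw [H.ei₂]; exact Nat.le_add_right _ _).trans H.iL)
  · -- hq
    have := hJ1 i₁ (hi12.trans H.iL)
    omega
  · -- hq₂
    have := hJ1 i₂ H.iL
    omega
  · intro i
    show a + (a₂ + A 5 * u + n i + N) + rr = a₂ + (a + A 0 * u + n i)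
    omega
  · omega
  · omega
  · rw [hυ]
    exact fu.1
  · rw [hυ]
    exact fu.2
  · -- ab'
    have h2 : (⌊x i₁ * J⌋₊ : ℝ) ≤ a + A 0 * u + A 0 + 1 := by
      have h3 := Nat.floor_le (mul_nonneg (hx0' i₁) hJ0)
      linarith [fa.2]
    exact_mod_cast h2
  · -- ab₂'
    have h2 : (⌊x i₂ * J⌋₊ : ℝ) ≤ a₂ + A 5 * u + A 5 + 1 := by
      have h3 := Nat.floor_le (mul_nonneg (hx0' i₂) hJ0)
      linarith [fa₂.2]
    exact_mod_cast h2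
  · exact fun i => (fn i).1
  · exact fun i => (fn i).2
  · intro i
    have h2 := (v i i₂ H.iL).2
    linarith [(fn i).1, fN.1]
  · intro i
    have h2 := (v i i₂ H.iL).1
    linarith [(fn i).2, fN.2]
  · intro i
    show ((a + A 0 * u + n i : ℕ) : ℝ) ≤ _
    push_cast
    linarith [(fn i).1, fa.1]
  · intro i
    show _ ≤ ((a + A 0 * u + n i : ℕ) : ℝ) + A 0 + 2
    push_cast
    linarith [(fn i).2, fa.2]
  · intro i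
    show ((a₂ + A 5 * u + n i + N : ℕ) : ℝ) ≤ _
    push_cast
    have h2 := (v i i₂ H.iL).2
    linarith [(fn i).1, fa₂.1, fN.1]
  · intro i
    show _ ≤ ((a₂ + A 5 * u + n i + N : ℕ) : ℝ) + A 5 + 4
    push_cast
    have h2 := (v i i₂ H.iL).1
    linarith [(fn i).2, fa₂.2, fN.2]
  · -- dj
    intro i
    have h2 := (v i j₁ H.jL₁).1
    linarith [(fn i).2, fu.2]
  · intro i
    have h2 := (v i j₂ H.jL₂).1
    have h3 : (s - 1) * ((j₂ : ℝ) - i₁) * R =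
      (s - 1) * ((j₂ : ℝ) - i₂) * R + (s - 1) * ((i₂ : ℝ) - i₁) * R := by ring
    linarith [(fn i).2, fu.2, fN.2]
  · -- dl
    intro i
    have h2 := (v i l₁ H.lL₁).2
    linarith [(fn i).1]
  · intro i
    have h2 := (v i l₂ H.lL₂).2
    have h3 : (s - 1) * ((l₂ : ℝ) - i₁) * R =
      (s - 1) * ((l₂ : ℝ) - i₂) * R + (s - 1) * ((i₂ : ℝ) - i₁) * R := by ring
    linarith [(fn i).1, fN.1]
  · -- dk
    intro i
    rw [hυ]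
    have h2 := (v i k₂ ((show k₂ ≤ i₂ by rw [H.ei₂]; exact Nat.le_add_right _ _).trans H.iL)).2
    linarith [(fn i).1]

end Pool.T4N97
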